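import Pool.Agent.Helper63.WO.Fin
import Pool.Agent.Helper63.WO.Long
import Pool.Agent.Helper57.EW.Two

open Filter Topology
open Pool.Agent.Helper57.PC

namespace Pool.Agent.Results.MP_8958e8_nt.EveryWindow

/-- The ordered pairs `(ρ, σ)` of simple zeros of zeta on the critical line with ordinates in `[0,T]` for which
`(Im ρ - Im σ) log T/(2π)` lies in `[α, β]`. -/
def simplePairs (T α β : ℝ) : Set (ℂ × ℂ) :=
  {p | (p.1 ∈ zerosUpTo T ∧ p.1.re = 1 / 2 ∧ mult p.1 = 1) ∧ (p.2 ∈ zerosUpTo T ∧ p.2.re = 1 / 2 ∧ mult p.2 = 1) ∧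
    (p.1.im - p.2.im) * Real.log T / (2 * Real.pi) ∈ Set.Icc α β}

/-- The constant `1/2 + cot(1/√2)/√2 = 1.3275`. -/
noncomputable def mtC : ℝ := 1 / 2 + Real.cot (1 / Real.sqrt 2) / Real.sqrt 2

open Pool.Agent.Helper57.Zeta Pool.Agent.Helper63.WO
open Pool.Agent.Helper6.HM (lev Sc mem_Sc)

lemma lev_sub (T : ℝ) (ρ σ : ℂ) : lev T ρ - lev T σ = (ρ.im - σ.im) * Real.log T / (2 * Real.pi) := by
  unfold lev
  rw [div_sub_div_same, ← sub_mul]

lemma mem_Sc' {T : ℝ} {ρ : ℂ} : ρ ∈ Sc T ↔ ρ ∈ zerosUpTo T ∧ ρ.re = 1 / 2 ∧ mult ρ = 1 := by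
  rw [mem_Sc]
  exact and_congr (Set.Finite.mem_toFinset _) Iff.rfl

lemma simplePairs_finite (T α β : ℝ) : (simplePairs T α β).Finite :=
  ((Sc T ×ˢ Sc T).finite_toSet).subset fun p hp => by
    rw [Finset.mem_coe, Finset.mem_product]
    exact ⟨mem_Sc'.2 hp.1, mem_Sc'.2 hp.2.1⟩

lemma card_le (T α β : ℝ) : ((PW T α β).card : ℝ) ≤ ((simplePairs T α β).ncard : ℝ) := by
  rw [← Set.ncard_coe_finset]
  have h : ((PW T α β : Finset (ℂ × ℂ)) : Set (ℂ × ℂ)) ⊆ simplePairs T α β := by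
    intro p hp
    rw [Finset.mem_coe] at hp
    obtain ⟨h3, h4, h5⟩ := mem_PW.1 hp
    rw [lev_sub] at h4 h5
    exact ⟨mem_Sc'.1 h3.1, mem_Sc'.1 h3.2, h4, h5.le⟩
  exact_mod_cast Set.ncard_le_ncard h (simplePairs_finite T α β)

lemma PW_mono' {T α β α' β' : ℝ} (h : α ≤ α') (h' : β' ≤ β) : ((PW T α' β').card : ℝ) ≤ ((PW T α β).card : ℝ) := by
  have : PW T α' β' ⊆ PW T α β := by
    intro q hq
    obtain ⟨h3, h4, h5⟩ := mem_PW.1 hq
    exact mem_PW.2 ⟨h3, by linarith, by linarith⟩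
  exact_mod_cast Finset.card_le_card this

open Classical in
lemma ncard_le (T α β : ℝ) : ((simplePairs T α β).ncard : ℝ) ≤ pairCount T α β := by
  rw [pairCount_eq, Set.ncard_eq_toFinset_card _ (simplePairs_finite T α β), Finset.card_eq_sum_ones]
  push_cast
  rw [← Finset.sum_filter]
  have h1 : (simplePairs_finite T α β).toFinset ⊆ (Zf T ×ˢ Zf T).filter (fun p => nd T p ∈ Set.Icc α β) := by
    intro p hp
    rw [Set.Finite.mem_toFinset] at hp
    rw [Finset.mem_filter, Finset.mem_product]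
    exact ⟨⟨(mem_Sc.1 (mem_Sc'.2 hp.1)).1, (mem_Sc.1 (mem_Sc'.2 hp.2.1)).1⟩, hp.2.2⟩
  calc (∑ _p ∈ (simplePairs_finite T α β).toFinset, (1:ℝ)) =
        ∑ p ∈ (simplePairs_finite T α β).toFinset, (mult p.1 : ℝ) * (mult p.2 : ℝ) := by
        refine Finset.sum_congr rfl fun p hp => ?_
        rw [Set.Finite.mem_toFinset] at hp
        rw [hp.1.2.2, hp.2.1.2.2]
        norm_num
    _ ≤ _ := Finset.sum_le_sum_of_subset_of_nonneg h1 fun p _ _ => by positivity

lemma mtC_eq : mtC = Pool.Agent.Helper66.RT.CMT := by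
  unfold mtC Pool.Agent.Helper66.RT.CMT
  have h0 : Real.sqrt 2 * Real.sqrt 2 = 2 := Real.mul_self_sqrt (by norm_num)
  have h1 : (1 : ℝ) / Real.sqrt 2 = Pool.Agent.Helper66.RT.aa := by
    have h2 : Real.sqrt 2 ≠ 0 := by positivity
    unfold Pool.Agent.Helper66.RT.aa
    field_simp
    linarith
  rw [div_eq_mul_one_div (Real.cot _), h1, Real.cot_eq_cos_div_sin]
  ring

lemma PO_ncard_le (T α β : ℝ) : ((Pool.Agent.Helper6.HM.PO T α β).ncard : ℝ) ≤ ((simplePairs T α β).ncard : ℝ) := by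
  have h : Pool.Agent.Helper6.HM.PO T α β ⊆ simplePairs T α β := fun p hp =>
    ⟨hp.1, hp.2.1, Set.Ioo_subset_Icc_self hp.2.2⟩
  exact_mod_cast Set.ncard_le_ncard h (simplePairs_finite T α β)

/-- the choice of the constants as functions of the length -/
lemma choice {L₀ : ℕ → ℝ} {η : ℕ → ℝ} {r : ℝ} (hr : 1 / 100 ≤ r) (hη : ∀ n, 0 < η n) (hanti : Antitone η)
    (hlim : Tendsto η atTop (𝓝 0)) :
    ∃ (c : ℝ → ℝ) (g : ℝ → ℕ), Tendsto c atTop (𝓝 r) ∧ (∀ L, 1 / 100 ≤ c L) ∧
      ∀ L, c L = 1 / 100 ∨ (L₀ (g L) ≤ L ∧ (c L = 1 / 100 ∨ c L = r - η (g L))) := by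
  classical
  let g : ℝ → ℕ := fun L => Nat.findGreatest (fun n => L₀ n ≤ L) ⌊L⌋₊
  let c : ℝ → ℝ := fun L => if g L = 0 then 1 / 100 else max (1 / 100) (r - η (g L))
  refine ⟨c, g, ?_, ?_, ?_⟩
  · rw [Metric.tendsto_atTop]
    intro ε hε
    obtain ⟨n, hn1, hn2⟩ := ((hlim.eventually (gt_mem_nhds hε)).and (eventually_ge_atTop 1)).exists
    refine ⟨max (L₀ n) (max n 1), fun L hL => ?_⟩
    have h1 : L₀ n ≤ L := (le_max_left _ _).trans hL
    have h2 : (n : ℝ) ≤ L := ((le_max_left _ _).trans (le_max_right _ _)).trans hL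
    have h3 : n ≤ g L := Nat.le_findGreatest (Nat.le_floor h2) h1
    have h4 : g L ≠ 0 := by omega
    have h5 : η (g L) ≤ η n := hanti h3
    have h6 := hη (g L)
    have h7 : c L = max (1 / 100) (r - η (g L)) := if_neg h4
    rw [Real.dist_eq, h7, abs_lt]
    constructor
    · have := le_max_right (1 / 100) (r - η (g L))
      linarith
    · have : max (1 / 100) (r - η (g L)) ≤ r := max_le hr (by linarith)
      linarith
  · intro L
    show 1 / 100 ≤ (if g L = 0 then 1 / 100 else max (1 / 100) (r - η (g L)) : ℝ)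
    split_ifs
    · exact le_refl _
    · exact le_max_left _ _
  · intro L
    by_cases h : g L = 0
    · left
      exact if_pos h
    · right
      have h7 : c L = max (1 / 100) (r - η (g L)) := if_neg h
      refine ⟨Nat.findGreatest_of_ne_zero (P := fun n => L₀ n ≤ L) (n := ⌊L⌋₊) rfl h, ?_⟩
      rcases max_choice (1 / 100) (r - η (g L)) with h8 | h8
      · left; rw [h7, h8]
      · right; rw [h7, h8]

end Pool.Agent.Results.MP_8958e8_nt.EveryWindow

open Pool.Agent.Results.MP_8958e8_nt.EveryWindow in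
/-- **Upper and lower bounds for the pair count `N(T; α, β)` of every window.** Let `S = T log T/(2π)` and let `F` = `pcDensity`
be the pair correlation function. `N*` is the number of the ordered pairs of **simple** zeros **on the critical line** with
ordinates in `[0,T]` and scaled difference in `[α, β]`. It is at most `N(T; α, β)` = `pairCount T α β`, which counts all
zeros with `0 < Re ρ < 1`, with multiplicity.

(1) There is a constant `A` such that `|N(T; α, β) - S ∫_α^β F| ≤ A S` for **all** windows `0 < α < β ≤ log T`, `T ≥ T₀`.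

(2) In every window of length at least `7/5` the lower bound has the right order, already for `N*`: there is a function `c` with
`c(L) ≥ 1/100` for `L ≥ 7/5` and `c(L) → 3 - 2 mtC = 0.345` for `L → ∞` such that for `L ≥ 7/5` there are `κ > 0` and `T₀` with
`N* ≥ c(L) (β - α) S` for `T ≥ T₀`, `0 < α`, `α + L ≤ β ≤ κ S`.

(3) For `0 < α ≤ β ≤ κ S`, `T ≥ T₀` also `N* ≥ ⌊(β - α)/(3/2)⌋ S/25`, and `N* ≥ S/25` if `[α, β]` contains `[1/2, 3/2]`, and
`N* ≥ S/2000` if it contains `[7/12, 7/5]`.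

No hypothesis is used.

The proof of (1): the pair sums with Fejer kernels of all dyadic widths from `1` to `T^(1/100)`, at all shifts, are computed up to
`O(S)` times the reciprocal of the width (explicit formula, second moment, density of the zeros off the line). The spectral
domination of the Fejer kernels bounds the difference of a sharp and a smooth window. The proof of (2), (3): if few zeros have
a partner in the window then the others form clusters, with inner gaps of total length `l` and `k` outer gaps, and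
`2 l + (k + 1) L ≤ S + α + L`. Let `H` be the Gram operator of all the zeros with the Montgomery-Taylor weight. Its trace of `H ^ 2`
is at most `(mtC + ε) S` (Baluyot, Goldston, Suriajaya and Turnage-Butterbaugh), and it is at least the trace against
`2P + (1-P)(1+K)(1-P)`, `P` the projection on the zeros which are not simple or off the line, `K` a coupling of consecutive
zeros: short inner gaps cost too much. For `L → ∞` one uses the density `2 - mtC` of the simple critical zeros and the moments of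
the number of the zeros in windows of length `L`.

The authors: helper63, helper4, helper6, helper96, helper54, helper66, helper77, helper49, helper65, helper99, helper69, helper57. -/
theorem Pool.Agent.Results.MP_8958e8_nt.EveryWindow.result :
    (∀ T α β : ℝ, ((simplePairs T α β).ncard : ℝ) ≤ pairCount T α β) ∧
    (∃ A T₀ : ℝ, 0 < A ∧ ∀ T : ℝ, T₀ ≤ T → ∀ α β : ℝ, 0 < α → α < β → β ≤ Real.log T →
      |pairCount T α β - (T * Real.log T / (2 * Real.pi)) * ∫ u in α..β, pcDensity u| ≤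
        A * (T * Real.log T / (2 * Real.pi))) ∧
    (∃ c : ℝ → ℝ, Tendsto c atTop (𝓝 (3 - 2 * mtC)) ∧ ∀ L : ℝ, 7 / 5 ≤ L → 1 / 100 ≤ c L ∧
      ∃ κ T₀ : ℝ, 0 < κ ∧ ∀ T : ℝ, T₀ ≤ T → ∀ α β : ℝ, 0 < α → α + L ≤ β → β ≤ κ * (T * Real.log T / (2 * Real.pi)) →
        c L * (β - α) * (T * Real.log T / (2 * Real.pi)) ≤ ((simplePairs T α β).ncard : ℝ)) ∧
    ∃ κ T₀ : ℝ, 0 < κ ∧ ∀ T : ℝ, T₀ ≤ T → ∀ α β : ℝ, 0 < α → α ≤ β → β ≤ κ * (T * Real.log T / (2 * Real.pi)) →
      1 / 25 * (⌊(β - α) / (3 / 2)⌋ : ℝ) * (T * Real.log T / (2 * Real.pi)) ≤ ((simplePairs T α β).ncard : ℝ) ∧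
      (α ≤ 1 / 2 → 3 / 2 ≤ β → 1 / 25 * (T * Real.log T / (2 * Real.pi)) ≤ ((simplePairs T α β).ncard : ℝ)) ∧
      (α ≤ 7 / 12 → 7 / 5 ≤ β → 1 / 2000 * (T * Real.log T / (2 * Real.pi)) ≤ ((simplePairs T α β).ncard : ℝ)) := by
  refine ⟨ncard_le, Pool.Agent.Helper57.EW.two_sided, ?_, ?_⟩
  · obtain ⟨T₁, h1⟩ := Pool.Agent.Helper6.HM.final3
    have hη : ∀ n : ℕ, (0:ℝ) < 1 / ((n : ℝ) + 1) := fun n => by positivity
    choose L₀ κ₀ T₀ hκ₀ h3 using fun n : ℕ => Pool.Agent.Helper63.WO.long_windows345 (hη n)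
    have hC := Pool.Agent.Helper66.RT.CMT_le3
    rw [mtC_eq]
    obtain ⟨c, g, hc, hc1, hc2⟩ := choice (L₀ := L₀) (r := 3 - 2 * Pool.Agent.Helper66.RT.CMT) (by linarith) hη
      (fun a b hab => by
        have : (a : ℝ) ≤ b := by exact_mod_cast hab
        show 1 / ((b : ℝ) + 1) ≤ 1 / ((a : ℝ) + 1)
        gcongr) tendsto_one_div_add_atTop_nhds_zero_nat
    refine ⟨c, hc, fun L hL => ⟨hc1 L, ?_⟩⟩
    have hA : ∀ T : ℝ, max T₁ 3 ≤ T → ∀ α β : ℝ, 0 < α → α + L ≤ β → β ≤ 1 / 1000 * (T * Real.log T / (2 * Real.pi)) →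
        1 / 100 * (β - α) * (T * Real.log T / (2 * Real.pi)) ≤ ((simplePairs T α β).ncard : ℝ) := by
      intro T hT α β hα hαβ hβ
      have := (h1 T ((le_max_left _ _).trans hT) α β hα.le (by linarith) (by linarith)).1
      have e : 1 / 100 * (β - α) * (T * Real.log T / (2 * Real.pi)) = (β - α) / 100 * (T * Real.log T / (2 * Real.pi)) := by ring
      rw [e]
      exact this.trans (PO_ncard_le T α β)
    rcases hc2 L with h | ⟨hL0, h | h⟩
    · rw [h]
      exact ⟨1 / 1000, max T₁ 3, by norm_num, hA⟩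
    · rw [h]
      exact ⟨1 / 1000, max T₁ 3, by norm_num, hA⟩
    · rw [h]
      refine ⟨κ₀ (g L), T₀ (g L), hκ₀ _, fun T hT α β hα hαβ hβ => ?_⟩
      exact (h3 (g L) T hT α β hα.le (by linarith) hβ).trans (PO_ncard_le T α β)
  · obtain ⟨T₁, hT₁, h₁⟩ := Pool.Agent.Helper63.WO.fin_long
    obtain ⟨T₃, hT₃, h₃⟩ := Pool.Agent.Helper63.WO.fin_near
    obtain ⟨T₄, hT₄, h₄⟩ := Pool.Agent.Helper63.WO.fin_unit
    refine ⟨1 / 10000, max T₁ (max T₃ T₄), by norm_num, fun T hT α β hα hαβ hβ => ?_⟩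
    have g1 : T₁ ≤ T := (le_max_left _ _).trans hT
    have hT' := (le_max_right _ _).trans hT
    have g3 : T₃ ≤ T := (le_max_left _ _).trans hT'
    have g4 : T₄ ≤ T := (le_max_right _ _).trans hT'
    have hS := SN_pos (hT₁.trans_le g1)
    have hS2 : T * Real.log T / (2 * Real.pi) = SN T := rfl
    rw [hS2] at hβ ⊢
    refine ⟨?_, fun h h' => ((h₄ T g4).trans (PW_mono' h h')).trans (card_le T α β),
      fun h h' => ((h₃ T g3).trans (PW_mono' h h')).trans (card_le T α β)⟩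
    by_cases h3 : α + 3 / 2 ≤ β
    · exact (h₁ T g1 α β hα h3 hβ).trans (card_le T α β)
    · push Not at h3
      have h4 : ⌊(β - α) / (3 / 2)⌋ ≤ 0 := by
        have : ⌊(β - α) / (3 / 2)⌋ < 1 := by
          rw [Int.floor_lt, div_lt_iff₀ (by norm_num)]
          push_cast
          linarith
        omega
      have h5 : (⌊(β - α) / (3 / 2)⌋ : ℝ) ≤ 0 := by exact_mod_cast h4
      have h6 : 1 / 25 * (⌊(β - α) / (3 / 2)⌋ : ℝ) * SN T ≤ 0 :=
        mul_nonpos_of_nonpos_of_nonneg (by linarith) hS.le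
      exact h6.trans (Nat.cast_nonneg _)
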