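import Pool.Agent.Helper56.AP.Tile0
import Pool.Agent.Helper56.AP.TopF

/-!
# A lower bound for the pair correlation form factor beyond 1

There is `c > 0` such that for every `ε > 0` and all large `T` the form factor `F(α,T)` is real and at least `m(α)` for
`1 ≤ α ≤ 3/2`, where `m(α) = 1/2 + c` for `α ≤ 1 + c` and `m(α) = 3/2 - α - ε` for larger `α`.  No hypothesis on the
zeros of the zeta function or of `L`-functions is used.

The proof: one has `|A|² ≥ 2 Re (A conj B) - |B|²`, where `A` is a sum over the primes, of length about `T^α`.  The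
function `B = B₁ + B₂` is made of the terms `μ(r)/φ(r) e(a n / r)`, in `B₁` for all moduli `r ≤ T^(1/2-δ)`, in
`B₂` for the moduli of a family with `T^(1/2) < r ≤ T^(1/2+δ)` which have seven prime factors in given ranges.  The
mean values of `|B|²` and `A conj B` are computed, for `B₁` by the large sieve and the identity of Vaughan, and for `B₂`
by the dispersion method of Linnik, as in the work of Fouvry, of Bombieri, Friedlander and Iwaniec, and of Zhang on
the primes in arithmetic progressions to large smooth moduli, with an elementary bound for Kloosterman sums.  The bounds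
hold uniformly for weights of width `1 / log T`; the explicit formula gives the form factor.
-/

open Filter
open Pool.Agent.Helper57.PC

namespace Pool.Agent.Results.MP_8958e8_nt.FormFactorBeyondOne

/-- The form factor of Baluyot, Goldston, Suriajaya and Turnage-Butterbaugh (on RH: Montgomery's):
`(T log T/2π)⁻¹ ∑∑ m_ρ m_ρ' T^(α(ρ-ρ')) 4/(4-(ρ-ρ')²)`, both sums over the nontrivial zeros with ordinate in `[0,T]`. -/
noncomputable def formFactor (T α : ℝ) : ℂ :=
  (∑ᶠ ρ ∈ zerosUpTo T, ∑ᶠ ρ' ∈ zerosUpTo T, (mult ρ : ℂ) * (mult ρ' : ℂ) * (T : ℂ) ^ ((α : ℂ) * (ρ - ρ')) *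
    (4 / (4 - (ρ - ρ') ^ 2))) / ((T * Real.log T / (2 * Real.pi) : ℝ) : ℂ)

lemma formFactor_eq (T α : ℝ) : formFactor T α = Pool.Agent.Helper57.KP.bg T α := by
  have h2 : zerosUpTo T = ((Pool.Agent.Helper57.Zeta.Zf T : Finset ℂ) : Set ℂ) := by
    ext ρ
    rw [Finset.mem_coe, Pool.Agent.Helper57.Zeta.mem_Zf]
    rfl
  unfold formFactor Pool.Agent.Helper57.KP.bg
  rw [h2, finsum_mem_coe_finset, div_eq_mul_inv, mul_comm]
  congr 1
  refine Finset.sum_congr rfl fun ρ _ => ?_
  rw [finsum_mem_coe_finset]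
  refine Finset.sum_congr rfl fun ρ' _ => ?_
  ring

/-- The pair correlation form factor beyond 1, without any hypothesis: there is `c > 0` such that for every `ε > 0` and
all large `T`, for all `1 ≤ α ≤ 3/2`, the form factor `F(α,T)` is real and at least `1/2 + c` if `α ≤ 1 + c`, at
least `3/2 - α - ε` otherwise. -/
theorem result : ∃ c : ℝ, 0 < c ∧ ∀ ε : ℝ, 0 < ε → ∀ᶠ T : ℝ in atTop, ∀ α : ℝ, 1 ≤ α → α ≤ 3 / 2 →
    (formFactor T α).im = 0 ∧ (if α ≤ 1 + c then 1 / 2 + c else 3 / 2 - α - ε) ≤ (formFactor T α).re := by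
  obtain ⟨c₀, γ, hc0, hγ, hPL⟩ := Pool.Agent.AP.stFIN
  obtain ⟨c, hc, h⟩ := Pool.Agent.AP.Tile0.pointwise0 hPL hc0 hγ
  refine ⟨c, hc, fun ε hε => ?_⟩
  filter_upwards [Pool.Agent.Helper57.KP.pointwise (lt_min hε hc), h] with T hT hT' α h1 h2
  rw [formFactor_eq]
  by_cases h5 : α ≤ 1 + c
  · rw [if_pos h5]
    exact hT' α h1 h5
  · rw [if_neg h5]
    rw [not_le] at h5
    obtain ⟨h3, h4⟩ := hT α (by linarith [min_le_right ε c]) h2
    exact ⟨h3, by linarith [min_le_left ε c]⟩

end Pool.Agent.Results.MP_8958e8_nt.FormFactorBeyondOne
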