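import Pool.Agent.Helper69.PQ.Close
import Pool.Agent.Helper22.SI.Den
import Pool.Agent.Helper69.ES.AsmR

open Filter Topology
open Pool.Agent.Helper57.PC

namespace Pool.Agent.Results.MP_8958e8_nt.PositiveProportion

/-- The nontrivial zero `ρ` is multiple, or some other nontrivial zero lies level with it or at most
`c` mean spacings `2π/log T` above it. -/
def HasCloseSuccessor (c T : ℝ) (ρ : ℂ) : Prop :=
  2 ≤ mult ρ ∨ ∃ ρ' : ℂ, IsNontrivialZero ρ' ∧ ρ' ≠ ρ ∧ 0 ≤ ρ'.im - ρ.im ∧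
    (ρ'.im - ρ.im) * Real.log T / (2 * Real.pi) ≤ c

/-- The number of such zeros with `c = 0.515` and ordinate in `[0,T]`, counted with multiplicity. -/
noncomputable def closeCount (T : ℝ) : ℝ :=
  ∑ᶠ ρ ∈ {ρ : ℂ | ρ ∈ zerosUpTo T ∧ HasCloseSuccessor (103 / 200) T ρ}, (mult ρ : ℝ)

/-- The sum of `mult ρ * x^(d |Re ρ - 1/2|)` over the zeros `ρ` with ordinate in `[x, x+H]` and
`HasCloseSuccessor c x ρ`. For `d = 0`, and also when these zeros are on the critical line, it is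
their number, counted with multiplicity. -/
noncomputable def closeWeight (c d x H : ℝ) : ℝ :=
  ∑ᶠ ρ ∈ {ρ : ℂ | IsNontrivialZero ρ ∧ x ≤ ρ.im ∧ ρ.im ≤ x + H ∧ HasCloseSuccessor c x ρ},
    (mult ρ : ℝ) * x ^ (d * |ρ.re - 1 / 2|)

open Pool.Agent.Helper57.Zeta Pool.Agent.Helper57.LH Pool.Agent.Helper4.SH Pool.Agent.Helper69.PP in
lemma close_of {c T : ℝ} {r : ZS} (h : CloseUpC c T r) : HasCloseSuccessor c T (r : ℂ) := by
  have hz : IsNontrivialZero (r : ℂ) := isNontrivialZero_iff.mpr r.2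
  rcases h with h | ⟨r', hne, h0, hle⟩
  · left
    show 2 ≤ mult (r : ℂ)
    rw [mult_eq hz]
    exact h
  · right
    exact ⟨r', isNontrivialZero_iff.mpr r'.2, fun h => hne (Subtype.ext h), h0, hle⟩

open Pool.Agent.Helper57.Zeta Pool.Agent.Helper57.LH Pool.Agent.Helper4.SH Pool.Agent.Helper69.PP in
open Classical in
lemma closeCount_ge (T : ℝ) : ∑ ρ ∈ (ZT T).filter (CloseUpC (103 / 200) T), mx ρ ≤ closeCount T := by
  have hfin : {ρ : ℂ | ρ ∈ zerosUpTo T ∧ HasCloseSuccessor (103 / 200) T ρ}.Finite :=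
    (zerosUpTo_finite T).subset fun ρ h => h.1
  unfold closeCount
  rw [finsum_mem_eq_finite_toFinset_sum _ hfin]
  have h1 : ∑ ρ ∈ (ZT T).filter (CloseUpC (103 / 200) T), mx ρ =
      ∑ ρ ∈ ((ZT T).filter (CloseUpC (103 / 200) T)).map ⟨Subtype.val, Subtype.val_injective⟩, (mult ρ : ℝ) := by
    rw [Finset.sum_map]
    refine Finset.sum_congr rfl fun ρ _ => ?_
    unfold mx
    rw [Function.Embedding.coeFn_mk, mult_eq (isNontrivialZero_iff.mpr ρ.2)]
  rw [h1]
  refine Finset.sum_le_sum_of_subset_of_nonneg ?_ (fun _ _ _ => Nat.cast_nonneg _)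
  intro ρ hρ
  obtain ⟨r, hr, rfl⟩ := Finset.mem_map.mp hρ
  obtain ⟨hr1, hr2⟩ := Finset.mem_filter.mp hr
  rw [Set.Finite.mem_toFinset]
  exact ⟨⟨isNontrivialZero_iff.mpr r.2, mem_ZT.mp hr1⟩, close_of hr2⟩

open Pool.Agent.Helper57.Zeta Pool.Agent.Helper57.LH Pool.Agent.Helper4.SH Pool.Agent.Helper22.SI in
lemma closeWeight_ge (c d H : ℝ) {x : ℝ} (hx : 0 ≤ x) :
    ∑ ρ ∈ UZ c x H, mx ρ * x ^ (d * |(ρ : ℂ).re - 1 / 2|) ≤ closeWeight c d x H := by
  have hfin : {ρ : ℂ | IsNontrivialZero ρ ∧ x ≤ ρ.im ∧ ρ.im ≤ x + H ∧ HasCloseSuccessor c x ρ}.Finite :=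
    (zerosUpTo_finite (x + H)).subset fun ρ h => ⟨h.1, hx.trans h.2.1, h.2.2.1⟩
  unfold closeWeight
  rw [finsum_mem_eq_finite_toFinset_sum _ hfin]
  have h1 : ∑ ρ ∈ UZ c x H, mx ρ * x ^ (d * |(ρ : ℂ).re - 1 / 2|) =
      ∑ ρ ∈ (UZ c x H).map ⟨Subtype.val, Subtype.val_injective⟩, (mult ρ : ℝ) * x ^ (d * |ρ.re - 1 / 2|) := by
    rw [Finset.sum_map]
    refine Finset.sum_congr rfl fun ρ _ => ?_
    unfold mx
    rw [Function.Embedding.coeFn_mk, mult_eq (isNontrivialZero_iff.mpr ρ.2)]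
  rw [h1]
  refine Finset.sum_le_sum_of_subset_of_nonneg ?_
    (fun _ _ _ => mul_nonneg (Nat.cast_nonneg _) (Real.rpow_nonneg hx _))
  intro ρ hρ
  obtain ⟨r, hr, rfl⟩ := Finset.mem_map.mp hρ
  obtain ⟨h2, h3, h4⟩ := (mem_UZ hx).mp hr
  rw [Set.Finite.mem_toFinset]
  exact ⟨isNontrivialZero_iff.mpr r.2, h2, h3, close_of h4⟩

end Pool.Agent.Results.MP_8958e8_nt.PositiveProportion

open Pool.Agent.Results.MP_8958e8_nt.PositiveProportion in
/-- Unconditional small gaps between the ordinates of the zeros of the Riemann zeta function in short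
intervals: in all intervals `[x, x + x^b]`, and in almost all stretches of boundedly many mean spacings.
(A) Let `0 < b ≤ 1` and `c(b) = 103/(103 + 97 b)`, so that `c(1) = 0.515`. There is `κ > 0` such that for
all large `x` at least `κ x^b log x` of the zeros with ordinate in `[x, x + x^b]` are multiple or are
followed by another zero at most `c(b)` mean spacings above them, if `b > 1/2` (`d = 0`); for `b ≤ 1/2` the
same holds if each zero is counted with the weight `x^(d |Re ρ - 1/2|)`, `d > 0` fixed and arbitrarily small.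
(B) There are `C, κ > 0` such that for every `K ≥ 1`, all `X ≥ X₀(K)` and all `x ∈ [X, 2X]` outside a set of
measure at most `C K^(-κ) X`: for EVERY `H` with `K/log X ≤ H ≤ X`, at least `(κ/K) H log X` of the zeros with
ordinate in `[x, x + H]` are multiple or are followed by another zero at most `0.68` mean spacings above them.
All zeros with `0 < Re ρ < 1` are counted, on the critical line or not, with multiplicity. No
hypothesis is used. -/
theorem Pool.Agent.Results.MP_8958e8_nt.PositiveProportion.result :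
    (∀ b : ℝ, 0 < b → b ≤ 1 → ∀ d : ℝ, 0 ≤ d → (1 / 2 < b ∨ 0 < d) →
      ∃ κ : ℝ, 0 < κ ∧ ∃ x₀ : ℝ, ∀ x : ℝ, x₀ ≤ x →
        κ * (x ^ b * Real.log x) ≤ closeWeight (103 / (103 + 97 * b)) d x (x ^ b)) ∧
    (∃ C κ : ℝ, 0 < κ ∧ ∀ K : ℝ, 1 ≤ K → ∃ X₀ : ℝ, ∀ X : ℝ, X₀ ≤ X →
      MeasureTheory.volume {x : ℝ | x ∈ Set.Icc X (2 * X) ∧
        ∃ H : ℝ, K / Real.log X ≤ H ∧ H ≤ X ∧ closeWeight (17 / 25) 0 x H < κ / K * (H * Real.log X)} ≤
        ENNReal.ofReal (C * K ^ (-κ) * X)) := by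
  refine ⟨fun b hb hb1 d hd hbd => ?_, ?_⟩
  · obtain ⟨κ, hκ, h⟩ := Pool.Agent.Helper22.SI.close_all hb hb1 hd hbd.symm
    obtain ⟨x₀, hx₀⟩ := eventually_atTop.mp (h.and (eventually_gt_atTop (0 : ℝ)))
    refine ⟨κ, hκ, x₀, fun x hx => ?_⟩
    obtain ⟨h1, h2⟩ := hx₀ x hx
    exact h1.trans (closeWeight_ge _ d _ h2.le)
  · obtain ⟨C, κ, _, hκ, h⟩ := Pool.Agent.Helper69.ESR.every_rate
    refine ⟨C, κ, hκ, fun K hK => ?_⟩
    obtain ⟨X₀, hX₀⟩ := eventually_atTop.mp ((h K hK).and (eventually_gt_atTop (0 : ℝ)))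
    refine ⟨X₀, fun X hX => ?_⟩
    obtain ⟨h1, h2⟩ := hX₀ X hX
    refine le_trans (MeasureTheory.measure_mono ?_) h1
    rintro x ⟨hx, H, hH1, hH2, hlt⟩
    refine ⟨hx, H, hH1, hH2, lt_of_le_of_lt ?_ hlt⟩
    refine le_trans (le_of_eq ?_) (closeWeight_ge _ 0 _ (h2.le.trans hx.1))
    refine Finset.sum_congr rfl fun ρ _ => ?_
    rw [zero_mul, Real.rpow_zero, mul_one]

open Pool.Agent.Results.MP_8958e8_nt.PositiveProportion in
/-- The long interval `[0, T]` and the pair count of the question: at least `c T log T` of the zeros with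
ordinate in `[0,T]` are multiple or are followed by another zero at most `0.515` mean spacings above
them, and `N(T; -0.515, 0.515) ≥ (1 + c) T log T/(2π)`. -/
theorem Pool.Agent.Results.MP_8958e8_nt.PositiveProportion.long_interval :
    ∃ c : ℝ, 0 < c ∧ ∃ T₀ : ℝ, ∀ T : ℝ, T₀ ≤ T →
      c * (T * Real.log T) ≤ closeCount T ∧
      (1 + c) * (T * Real.log T / (2 * Real.pi)) ≤ pairCount T (-(103 / 200)) (103 / 200) := by
  obtain ⟨p, hp, h⟩ := Pool.Agent.Helper69.PQ.main_close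
  obtain ⟨T0, hT0⟩ := eventually_atTop.mp
    ((Pool.Agent.Helper69.PP.one_side_c (by norm_num) (by norm_num) hp h).and ((Pool.Agent.Helper69.PP.pair_lower_c (by norm_num) (by norm_num) hp h).and
      (eventually_gt_atTop (1:ℝ))))
  refine ⟨p / 4, by positivity, T0, fun T hT => ?_⟩
  obtain ⟨h1, h2, h3⟩ := hT0 T hT
  refine ⟨h1.trans (closeCount_ge T), ?_⟩
  have h4 : 0 ≤ T * Real.log T / (2 * Real.pi) := (SN_pos h3).le
  refine le_trans ?_ h2
  unfold SN
  have : (1 + p / 4) ≤ 1 + p := by linarith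
  exact mul_le_mul_of_nonneg_right this h4

/-- The pair count of the question near `0` exceeds its diagonal:
`N(T; -0.515, 0.515) ≥ (1 + c) T log T/(2π)`. -/
theorem Pool.Agent.Results.MP_8958e8_nt.PositiveProportion.pair_count :
    ∃ c : ℝ, 0 < c ∧ ∃ T₀ : ℝ, ∀ T : ℝ, T₀ ≤ T →
      (1 + c) * (T * Real.log T / (2 * Real.pi)) ≤ pairCount T (-(103 / 200)) (103 / 200) := by
  obtain ⟨c, hc, T₀, h⟩ := Pool.Agent.Results.MP_8958e8_nt.PositiveProportion.long_interval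
  exact ⟨c, hc, T₀, fun T hT => (h T hT).2⟩
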